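import Pool.Agent.R190.KR.Main

set_option autoImplicit false

namespace Pool.Agent.Results.MP_d11fee_pr.SymmetricParents

open Pool.Agent.R190.KR

/-- Full answer to Q1 of MP_d11fee_pr: the value of `D^s(k,n)` for all `k ≥ 2`, `n ≥ 1`. -/
theorem result (k n : ℕ) (hk : 2 ≤ k) (hn : 1 ≤ n) :
    (∑ j ∈ Finset.range (n + 1), (k * Real.log 2) ^ j / j.factorial ≤ (2 : ℝ) ^ (k - 1) →
      IsLUB (stdMeans k n) 0) ∧
    ((2 : ℝ) ^ (k - 1) < ∑ j ∈ Finset.range (n + 1), (k * Real.log 2) ^ j / j.factorial →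
      ∃ α : ℝ, IsCut k n α ∧ (∀ β, IsCut k n β → β = α) ∧
        IsLUB (stdMeans k n) (Real.sqrt (1 / 2 * ((∫ x in (1 / 2 : ℝ)..α, sfun k n x ^ 2) +
          (1 - α) * sfun k n α ^ 2)))) :=
  main k n hk hn

end Pool.Agent.Results.MP_d11fee_pr.SymmetricParents
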